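import Pool.Agent.R498.MT.QSys

set_option autoImplicit false

/-!
# Clusters of almost primes `n ^ 2 + a` in narrow progressions
-/

namespace Pool.Agent.Results.MP_391708_nt.Clusters

open Filter

/-- `n ≠ 0` is up to the sign a product of at most `r` primes, counted with multiplicity, all of them at
least `w`. -/
def AlmostPrime (r : ℕ) (w : ℝ) (n : ℤ) : Prop :=
  n ≠ 0 ∧ n.natAbs.primeFactorsList.length ≤ r ∧ ∀ q : ℕ, q.Prime → (q : ℤ) ∣ n → w ≤ q

/-- **A theorem of Maynard-Tao type for `n ^ 2 + a`.** Let `a` be an integer which is not of the form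
`-m ^ 2`. For every `m` there is `K` such that, for every finite set `S` of at least `K` nonnegative
integers and every `l`, there is an exponent `B` such that for all large `N` there are a subset `H` of `S`
with `m` elements and an arithmetic progression `u, u + d, ..., u + (l - 1) d` in `(N, N + N ^ (3 / 4)]`
with difference `1 ≤ d ≤ (log N) ^ B` such that for all its terms `x` and all `h ∈ H`, with `n = x + h`,
the number `n ^ 2 + a` is up to the sign a product of at most three primes, all of them at least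
`N ^ (73 / 400)`. -/
theorem result (a : ℤ) (ha : ¬ IsSquare (-a)) (m : ℕ) :
    ∃ K : ℕ, ∀ S : Finset ℕ, K ≤ S.card → ∀ l : ℕ, ∃ B : ℕ, ∀ᶠ N : ℕ in atTop,
      ∃ H ⊆ S, H.card = m ∧ ∃ u d : ℕ, 1 ≤ d ∧ (d : ℝ) ≤ Real.log N ^ B ∧
      ∀ j < l, N < u + j * d ∧ ((u + j * d : ℕ) : ℝ) ≤ N + (N : ℝ) ^ (3 / 4 : ℝ) ∧
        ∀ h ∈ H, AlmostPrime 3 ((N : ℝ) ^ (73 / 400 : ℝ)) (((u + j * d + h : ℕ) : ℤ) ^ 2 + a) := by
  obtain ⟨K, hK⟩ := Pool.Agent.R498.MT.quad_sys 1 0 a one_ne_zero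
    (by
      rintro ⟨r, hr⟩
      apply ha
      have h2 : Even r := by
        rcases Int.even_or_odd r with h | h
        · exact h
        · exfalso
          have h3 := h.mul h
          rw [← hr] at h3
          have h4 : Even ((0 : ℤ) ^ 2 - 4 * 1 * a) := ⟨-2 * a, by ring⟩
          exact (Int.not_even_iff_odd.2 h3) h4
      obtain ⟨k, rfl⟩ := h2
      exact ⟨k, by linarith⟩)
    1 one_ne_zero
    (fun p hp => by
      by_contra hcon
      push Not at hcon
      have h0 := hcon 0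
      have h1 := hcon 1
      simp only [Polynomial.eval_one, mul_one] at h0 h1
      have h2 := dvd_sub h1 h0
      have e : 1 * 1 ^ 2 + 0 + a - (1 * 0 ^ 2 + 0 * 0 + a) = (1 : ℤ) := by ring
      rw [e] at h2
      have h3 : p ∣ 1 := by exact_mod_cast h2
      exact hp.one_lt.ne' (Nat.dvd_one.1 h3)) m
  refine ⟨K, fun S hS l => ?_⟩
  obtain ⟨r, δ, hδ, hmain⟩ := hK S hS
  obtain ⟨B, hB⟩ := hmain l
  refine ⟨B, ?_⟩
  filter_upwards [hB] with N hN
  obtain ⟨H, hH, hHc, n, d, h1, h2, h3⟩ := hN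
  refine ⟨H, hH, hHc, n, d, h1, h2, fun j hj => ?_⟩
  obtain ⟨h4, h5, h6⟩ := h3 j hj
  refine ⟨h4, h5, fun h hh => ?_⟩
  obtain ⟨g1, g2, -, -⟩ := h6 h hh
  have e1 : 1 * ((n + j * d + h : ℕ) : ℤ) ^ 2 + 0 * ((n + j * d + h : ℕ) : ℤ) + a =
      ((n + j * d + h : ℕ) : ℤ) ^ 2 + a := by ring
  rw [e1] at g1 g2
  refine ⟨fun h0 => ha ⟨((n + j * d + h : ℕ) : ℤ), ?_⟩, g1, g2⟩
  rw [← sq]
  linarith

end Pool.Agent.Results.MP_391708_nt.Clusters
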