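import Mathlib
import Pool.Agent.R463.Quad
import Pool.Agent.R463.EX10

set_option autoImplicit false

/-!
# The exact local structure of the almost primes `n ^ 2 + a` in arithmetic progressions

Uniformly in ALL `a`, in ALL progressions `n = q m + b`, `q` up to any power of `X`, and in all short intervals.
-/

namespace Pool.Agent.Results.MP_391708_nt.ExactBlocksInProgressions

open Finset Filter
open Pool.Agent.R463.PS

/-- for `n = q m + b` the number `n ^ 2 + a` has no prime factor `p ≤ X ^ (1 / r)` -/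
def Good (a : ℤ) (q b X r m : ℕ) : Prop :=
  ∀ p : ℕ, p.Prime → (p : ℝ) ≤ (X : ℝ) ^ (1 / (r : ℝ)) → ¬ (p : ℤ) ∣ (q * m + b : ℤ) ^ 2 + a

/-- `0` for the prime factors of `q`, otherwise the number of the roots of `n ^ 2 + a` modulo `p` -/
def nu (a : ℤ) (q p : ℕ) : ℕ :=
  if p ∣ q then 0 else ((range p).filter (fun n : ℕ => (p : ℤ) ∣ (n : ℤ) ^ 2 + a)).card

/-- the density: the product of `1 - nu(p) / p` over the primes `p ≤ X ^ (1 / r)` -/
noncomputable def V (a : ℤ) (q X r : ℕ) : ℝ :=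
  ∏ p ∈ (Icc 1 ⌊(X : ℝ) ^ (1 / (r : ℝ))⌋₊).filter Nat.Prime, (1 - (nu a q p : ℝ) / p)

/-- the product of `(1 - nu(p) / p) / (1 - 1 / p)` over the primes `p ≤ X ^ (1 / r)` -/
noncomputable def C (a : ℤ) (q X r : ℕ) : ℝ :=
  ∏ p ∈ (Icc 1 ⌊(X : ℝ) ^ (1 / (r : ℝ))⌋₊).filter Nat.Prime,
    (1 - (nu a q p : ℝ) / p) / (1 - 1 / (p : ℝ))

open Classical in
/-- the number of the residues `m` modulo `p` for which `p` divides `(q (m + h) + b) ^ 2 + a` for an
`h ∈ H` -/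
noncomputable def nuH (a : ℤ) (q b : ℕ) (H : Finset ℕ) (p : ℕ) : ℕ :=
  ((range p).filter (fun m : ℕ => ∃ h ∈ H, (p : ℤ) ∣ (q * ((m + h : ℕ) : ℤ) + b : ℤ) ^ 2 + a)).card

/-- the density of the pattern: the product of `1 - nuH(p) / p` over the primes `p ≤ X ^ (1 / r)` -/
noncomputable def VH (a : ℤ) (q b : ℕ) (H : Finset ℕ) (X r : ℕ) : ℝ :=
  ∏ p ∈ (Icc 1 ⌊(X : ℝ) ^ (1 / (r : ℝ))⌋₊).filter Nat.Prime, (1 - (nuH a q b H p : ℝ) / p)

open Classical in
/-- the number of the `m` in `(Z, Z + Y]` for which the good integers in `[m, m + L]` are exactly the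
integers `m + h` with `h ∈ H` -/
noncomputable def Blocks (a : ℤ) (q b : ℕ) (H : Finset ℕ) (L X r Z Y : ℕ) : ℕ :=
  ((Ioc Z (Z + Y)).filter (fun m => ∀ h ≤ L, Good a q b X r (m + h) ↔ h ∈ H)).card

/-- the coefficients -/
noncomputable abbrev qq (a : ℤ) (q b : ℕ) := Pool.Agent.TH464.PO.qs ((q : ℤ) ^ 2) (2 * q * b) ((b : ℤ) ^ 2 + a)

lemma val (a : ℤ) (q b : ℕ) (m : ℤ) :
    (q : ℤ) ^ 2 * m ^ 2 + (2 * q * b) * m + ((b : ℤ) ^ 2 + a) = (q * m + b : ℤ) ^ 2 + a := by ring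

lemma good_iff (a : ℤ) (q b X r n : ℕ) : Good a q b X r n ↔ Sifted (qq a q b) X r n := by
  rw [quad_sift]
  unfold Good
  simp only [val]

lemma om_eq (a : ℤ) (q b p : ℕ) (hp : p.Prime) (hc : IsCoprime (q : ℤ) ((b : ℤ) ^ 2 + a)) :
    om (qq a q b) p = nu a q p := by
  classical
  rw [quad_om]
  simp only [val]
  unfold nu
  split_ifs with hpq
  · rw [Finset.card_eq_zero, Finset.filter_eq_empty_iff]
    intro m _ hd
    have h1 : (p : ℤ) ∣ q := Int.natCast_dvd_natCast.2 hpq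
    have h2 : (p : ℤ) ∣ (b : ℤ) ^ 2 + a := by
      have e : (q * m + b : ℤ) ^ 2 + a = q * (q * m ^ 2 + 2 * m * b) + ((b : ℤ) ^ 2 + a) := by ring
      rw [e] at hd
      exact (dvd_add_right (h1.mul_right _)).1 hd
    obtain ⟨u, v, huv⟩ := hc
    have h3 : (p : ℤ) ∣ 1 := by
      rw [← huv]
      exact dvd_add (h1.mul_left _) (h2.mul_left _)
    have h4 : p ∣ 1 := by exact_mod_cast h3
    exact hp.one_lt.ne' (Nat.dvd_one.1 h4)
  · have hcop : Nat.Coprime p q := (Nat.Prime.coprime_iff_not_dvd hp).2 hpq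
    have hmod : ∀ x y : ℤ, (p : ℤ) ∣ x - y → ((p : ℤ) ∣ x ^ 2 + a ↔ (p : ℤ) ∣ y ^ 2 + a) := by
      intro x y hxy
      have h1 : (p : ℤ) ∣ (x ^ 2 + a) - (y ^ 2 + a) := by
        rw [show (x ^ 2 + a) - (y ^ 2 + a) = (x - y) * (x + y) by ring]
        exact hxy.mul_right _
      constructor
      · intro h
        have := dvd_sub h h1
        rwa [sub_sub_cancel] at this
      · intro h
        have := dvd_add h1 h
        rwa [sub_add_cancel] at this
    have hpp := hp.pos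
    have hsub : ∀ m : ℕ, (p : ℤ) ∣ (((q * m + b) % p : ℕ) : ℤ) - (q * m + b) := by
      intro m
      have h1 := Nat.div_add_mod (q * m + b) p
      refine ⟨-(((q * m + b) / p : ℕ) : ℤ), ?_⟩
      have h2 : ((p * ((q * m + b) / p) + (q * m + b) % p : ℕ) : ℤ) = ((q * m + b : ℕ) : ℤ) := by
        exact_mod_cast h1
      push_cast at h2 ⊢
      linarith
    apply card_bij (fun m _ => (q * m + b) % p)
    · intro m hm
      rw [mem_filter] at hm ⊢
      refine ⟨mem_range.2 (Nat.mod_lt _ hpp), ?_⟩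
      exact (hmod _ _ (hsub m)).2 hm.2
    · intro m hm m' hm' he
      rw [mem_filter, mem_range] at hm hm'
      have h1 : q * m + b ≡ q * m' + b [MOD p] := he
      have h2 : q * m ≡ q * m' [MOD p] := Nat.ModEq.add_right_cancel' _ h1
      exact Nat.ModEq.eq_of_lt_of_lt (Nat.ModEq.cancel_left_of_coprime hcop h2) hm.1 hm'.1
    · intro n hn
      rw [mem_filter, mem_range] at hn
      obtain ⟨x, hx⟩ := Pool.Agent.Y879.PR.exists_root q (b + (p - n)) p hp hpq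
      have h1 : q * (x % p) + b ≡ n [MOD p] := by
        have h2 : q * (x % p) + (b + (p - n)) ≡ 0 [MOD p] :=
          (Nat.ModEq.add_right _ (Nat.ModEq.mul_left _ (Nat.mod_modEq x p))).trans
            ((Nat.modEq_zero_iff_dvd).2 hx)
        have h3 : q * (x % p) + b + p ≡ 0 + n [MOD p] := by
          have h4 := Nat.ModEq.add_right n h2
          have e : q * (x % p) + (b + (p - n)) + n = q * (x % p) + b + p := by omega
          rwa [e] at h4
        rw [zero_add] at h3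
        have h5 : q * (x % p) + b + p ≡ q * (x % p) + b [MOD p] := by
          unfold Nat.ModEq
          rw [Nat.add_mod_right]
        exact h5.symm.trans h3
      have h6 : (q * (x % p) + b) % p = n := by
        have h7 : (q * (x % p) + b) % p = n % p := h1
        rw [h7, Nat.mod_eq_of_lt hn.1]
      refine ⟨x % p, ?_, h6⟩
      rw [mem_filter, mem_range]
      refine ⟨Nat.mod_lt _ hpp, ?_⟩
      apply (hmod _ _ (hsub (x % p))).1
      rw [h6]
      exact hn.2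

lemma V_eq (a : ℤ) (q b X r : ℕ) (hc : IsCoprime (q : ℤ) ((b : ℤ) ^ 2 + a)) :
    V a q X r = Pool.Agent.R463.PS.V (qq a q b) X r := by
  unfold V Pool.Agent.R463.PS.V
  apply prod_congr rfl
  intro p hp
  rw [om_eq a q b p (mem_filter.1 hp).2 hc]

lemma C_eq (a : ℤ) (q X r : ℕ) : C a q X r = V a q X r / Pool.Agent.H373R2.T7.Vz ⌊(X : ℝ) ^ (1 / (r : ℝ))⌋₊ := by
  unfold C V Pool.Agent.H373R2.T7.Vz
  rw [Finset.prod_div_distrib]
  rfl

lemma VH_eq (a : ℤ) (q b : ℕ) (H : Finset ℕ) (X r : ℕ) :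
    VH a q b H X r = Pool.Agent.R463.PS.VH (qq a q b) H X r := by
  classical
  unfold VH Pool.Agent.R463.PS.VH
  apply prod_congr rfl
  intro p _
  have : nuH a q b H p = omH (qq a q b) H p := by
    unfold nuH omH
    congr 1
    ext n
    simp only [mem_filter]
    constructor
    · rintro ⟨h1, h, hh, h2⟩
      refine ⟨h1, h, hh, (Pool.Agent.TH464.PO.qs_Q _ _ _ p (n + h)).2 ?_⟩
      rw [val]
      exact h2
    · rintro ⟨h1, h, hh, h2⟩
      have h3 := (Pool.Agent.TH464.PO.qs_Q _ _ _ p (n + h)).1 h2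
      rw [val] at h3
      exact ⟨h1, h, hh, h3⟩
  rw [this]

lemma Blocks_eq (a : ℤ) (q b : ℕ) (H : Finset ℕ) (L X r Z Y : ℕ) :
    Blocks a q b H L X r Z Y = exS (qq a q b) H L X r Z Y := by
  classical
  unfold Blocks exS
  congr 1
  ext n
  simp only [mem_filter, good_iff]

/-- **The exact local structure of the almost primes `n ^ 2 + a` in arithmetic progressions.** For every
natural `A`, `K`, `θ > 0`, `x₀` and `ε > 0` there is `r₀` such that for all `r ≥ r₀`, all `B` and all large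
`X` the following holds uniformly for ALL integers `a`, `|a| ≤ X ^ A`, not of the form `- m ^ 2`, ALL moduli
`1 ≤ q ≤ X ^ A` and residues `b ≤ X ^ A` with `b ^ 2 + a` prime to `q`, for which the partial product `C` is at
most `B`, for ALL intervals `(Z, Z + Y]` with `Y ≥ X ^ θ`, all sets `H` of at most `K` natural numbers with
`0 ∈ H`, and all `L ≥ max H` with `L V ≤ x₀`: the number of the `m` in `(Z, Z + Y]` for which the good
integers in `[m, m + L]` are exactly the `m + h`, `h ∈ H`, is `Y VH exp (- L V)`, up to the factor `1 ± ε`. -/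
theorem result (A : ℕ) (θ : ℝ) (hθ : 0 < θ) (K : ℕ) (x₀ ε : ℝ) (hε : 0 < ε) :
    ∃ r₀ : ℕ, ∀ r : ℕ, r₀ ≤ r → ∀ B : ℝ, ∀ᶠ X : ℕ in atTop, ∀ (a : ℤ) (q b : ℕ), ¬ IsSquare (-a) →
        |a| ≤ (X : ℤ) ^ A → 1 ≤ q → q ≤ X ^ A → b ≤ X ^ A → IsCoprime (q : ℤ) ((b : ℤ) ^ 2 + a) →
        C a q X r ≤ B →
        ∀ Z Y : ℕ, (X : ℝ) ^ θ ≤ Y → ∀ H : Finset ℕ, H.card ≤ K → 0 ∈ H → ∀ L : ℕ,
          (∀ h ∈ H, h ≤ L) → L * V a q X r ≤ x₀ →
          |(Blocks a q b H L X r Z Y : ℝ) - Y * VH a q b H X r * Real.exp (-(L * V a q X r))| ≤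
            ε * (Y * VH a q b H X r * Real.exp (-(L * V a q X r))) := by
  obtain ⟨r₀, h⟩ := blocks' 1 2 K (((2 * A + 2 : ℕ) : ℝ) + 1) 1 θ x₀ ε (by positivity) one_pos hθ hε
  refine ⟨max r₀ 2, fun r hr B => ?_⟩
  have hr2 : 2 ≤ r := (le_max_right _ _).trans hr
  obtain ⟨w1, w2, hw1, hw2, hW⟩ := W0_bounds r hr2
  filter_upwards [h r ((le_max_left _ _).trans hr) (|B| * w2), hW, eventually_ge_atTop 3]
    with X h1 h2 h3 a q b hsq haX hq hqX hbX hcop hCB Z Y hY H hH h0 L hL hx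
  have hlog : 0 < Real.log X := Real.log_pos (by exact_mod_cast (by omega : 1 < X))
  have hz : 0 < Pool.Agent.H373R2.T7.Vz ⌊(X : ℝ) ^ (1 / (r : ℝ))⌋₊ :=
    lt_of_lt_of_le (by positivity) h2.1
  rw [C_eq, div_le_iff₀ hz] at hCB
  have hV : V a q X r ≤ |B| * w2 / Real.log X := by
    refine hCB.trans ?_
    calc B * Pool.Agent.H373R2.T7.Vz ⌊(X : ℝ) ^ (1 / (r : ℝ))⌋₊ ≤
        |B| * Pool.Agent.H373R2.T7.Vz ⌊(X : ℝ) ^ (1 / (r : ℝ))⌋₊ :=
          mul_le_mul_of_nonneg_right (le_abs_self B) hz.le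
      _ ≤ |B| * (w2 / Real.log X) := mul_le_mul_of_nonneg_left h2.2 (abs_nonneg B)
      _ = |B| * w2 / Real.log X := by ring
  rw [V_eq a q b X r hcop] at hV hx ⊢
  rw [Blocks_eq, VH_eq]
  -- the conditions on the coefficients
  have hqz : (1 : ℤ) ≤ q := by exact_mod_cast hq
  have hXz : (3 : ℤ) ≤ X := by exact_mod_cast h3
  have hqXz : (q : ℤ) ≤ (X : ℤ) ^ A := by exact_mod_cast hqX
  have hbXz : (b : ℤ) ≤ (X : ℤ) ^ A := by exact_mod_cast hbX
  have hb0 : (0 : ℤ) ≤ b := Int.natCast_nonneg b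
  have hA1 : (1 : ℤ) ≤ (X : ℤ) ^ A := one_le_pow₀ (by linarith)
  have hpow : (X : ℤ) ^ (2 * A + 2) = (X : ℤ) ^ A * (X : ℤ) ^ A * ((X : ℤ) * X) := by ring
  have hXX : (9 : ℤ) ≤ (X : ℤ) * X := by nlinarith
  have hAA : (X : ℤ) ^ A ≤ (X : ℤ) ^ A * (X : ℤ) ^ A := by nlinarith
  have hbig : 9 * ((X : ℤ) ^ A * (X : ℤ) ^ A) ≤ (X : ℤ) ^ (2 * A + 2) := by
    rw [hpow]
    have h0 : (0 : ℤ) ≤ (X : ℤ) ^ A * (X : ℤ) ^ A := by positivity
    nlinarith
  have hqb : (q : ℤ) * b ≤ (X : ℤ) ^ A * (X : ℤ) ^ A :=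
    mul_le_mul hqXz hbXz hb0 (by positivity)
  have hqq : (q : ℤ) * q ≤ (X : ℤ) ^ A * (X : ℤ) ^ A :=
    mul_le_mul hqXz hqXz (by positivity) (by positivity)
  have hbb : (b : ℤ) * b ≤ (X : ℤ) ^ A * (X : ℤ) ^ A :=
    mul_le_mul hbXz hbXz hb0 (by positivity)
  refine h1 _ (quad_system (2 * A + 2) X (by omega) _ _ _ (by positivity) ?_ ?_ ?_ ?_ ?_ ?_ _) hV Z Y hY H hH h0 L hL hx
  · rintro p hp ⟨g1, g2, g3⟩
    have hp' := Nat.prime_iff_prime_int.1 hp
    have g4 : (p : ℤ) ∣ q := hp'.dvd_of_dvd_pow g1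
    obtain ⟨u, v, huv⟩ := hcop
    have g5 : (p : ℤ) ∣ 1 := by
      rw [← huv]
      exact dvd_add (g4.mul_left _) (g3.mul_left _)
    have g6 : p ∣ 1 := by exact_mod_cast g5
    exact hp.one_lt.ne' (Nat.dvd_one.1 g6)
  · rintro ⟨g1, g2⟩
    have g3 : Even (q : ℤ) := by
      have g4 : Even ((q : ℤ) ^ 2) := by
        have g5 : Even ((2 : ℤ) * q * b) := ⟨q * b, by ring⟩
        have := g1.sub g5
        rwa [add_sub_cancel_right] at this
      exact (Int.even_pow.1 g4).1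
    obtain ⟨u, v, huv⟩ := hcop
    have g4 : Even (1 : ℤ) := by
      rw [← huv]
      exact (g3.mul_left _).add (g2.mul_left _)
    exact absurd g4 (by decide)
  · rintro ⟨m, hm⟩
    have e : (2 * (q : ℤ) * b) ^ 2 - 4 * (q : ℤ) ^ 2 * ((b : ℤ) ^ 2 + a) = (2 * q) ^ 2 * (-a) := by ring
    rw [e] at hm
    apply hsq
    have h5 : ((2 * (q : ℤ)) ^ 2) ∣ m ^ 2 := ⟨-a, by rw [sq m, ← hm]⟩
    have h6 : (2 * (q : ℤ)) ∣ m := (Int.pow_dvd_pow_iff (by norm_num)).1 h5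
    obtain ⟨c, hc⟩ := h6
    refine ⟨c, ?_⟩
    rw [hc] at hm
    have h7 : (2 * (q : ℤ)) ^ 2 ≠ 0 := by positivity
    apply mul_left_cancel₀ h7
    rw [hm]
    ring
  · rw [abs_of_nonneg (by positivity)]
    nlinarith
  · rw [abs_of_nonneg (by positivity)]
    nlinarith
  · have h8 : |(b : ℤ) ^ 2 + a| ≤ |(b : ℤ) ^ 2| + |a| := abs_add_le _ _
    rw [abs_of_nonneg (show (0 : ℤ) ≤ (b : ℤ) ^ 2 by positivity)] at h8
    nlinarith

end Pool.Agent.Results.MP_391708_nt.ExactBlocksInProgressions
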