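import Mathlib
import Pool.Agent.R490.PrimeArg
import Pool.Agent.R463.EX11

set_option autoImplicit false

/-!
# The exact local structure of the almost primes `n ^ 2 + a` around prime arguments, uniformly in `a`
-/

namespace Pool.Agent.Results.MP_391708_nt.ExactBlocksWithPrime

open Finset Filter

/-- neither `n` nor `n ^ 2 + a` has a prime factor `p ≤ N ^ (1 / r)` -/
def Good (a : ℤ) (N r n : ℕ) : Prop :=
  ∀ p : ℕ, p.Prime → (p : ℝ) ≤ (N : ℝ) ^ (1 / (r : ℝ)) → ¬ p ∣ n ∧ ¬ (p : ℤ) ∣ (n : ℤ) ^ 2 + a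

/-- the number of the residues `n` modulo `p` for which `p` divides `m` or `m ^ 2 + a` for one of the
integers `m = n + h`, `h ∈ H` -/
def nu (a : ℤ) (H : Finset ℕ) (p : ℕ) : ℕ :=
  ((range p).filter (fun n : ℕ => ∃ h ∈ H, p ∣ n + h ∨ (p : ℤ) ∣ ((n + h : ℕ) : ℤ) ^ 2 + a)).card

/-- the product of `1 - nu(p) / p` over the primes `p ≤ N ^ (1 / r)` -/
noncomputable def V (a : ℤ) (H : Finset ℕ) (N r : ℕ) : ℝ :=
  ∏ p ∈ (Icc 1 ⌊(N : ℝ) ^ (1 / (r : ℝ))⌋₊).filter Nat.Prime, (1 - (nu a H p : ℝ) / p)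

/-- the product of `(1 - nu(p) / p) / (1 - 1 / p)` over the primes `p ≤ N ^ (1 / r)` -/
noncomputable def W (a : ℤ) (H : Finset ℕ) (N r : ℕ) : ℝ :=
  ∏ p ∈ (Icc 1 ⌊(N : ℝ) ^ (1 / (r : ℝ))⌋₊).filter Nat.Prime,
    (1 - (nu a H p : ℝ) / p) / (1 - 1 / (p : ℝ))

open Classical in
/-- the number of the integers `n` in `(u, u + Y]` for which `n + b` is a PRIME and the good integers in
`[n, n + L]` are exactly the integers `n + h`, `h ∈ H` -/
noncomputable def Blocks (a : ℤ) (H : Finset ℕ) (b L N r u Y : ℕ) : ℕ :=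
  ((Ioc u (u + Y)).filter (fun n => (n + b).Prime ∧ ∀ h ≤ L, Good a N r (n + h) ↔ h ∈ H)).card

/-- the function -/
def q (a : ℤ) (x : ℤ) : ℤ := x ^ 2 + a

/-- the system -/
noncomputable def sy (a : ℤ) : Fin 2 → Polynomial ℤ :=
  Pool.Agent.R490.PA.two (Pool.Agent.TH464.PW.quad 1 0 a)

lemma sy_Q (a : ℤ) (p m : ℕ) : Pool.Agent.W123.RU.Poly.Q (sy a) p m ↔ p ∣ m ∨ (p : ℤ) ∣ (m : ℤ) ^ 2 + a :=
  Pool.Agent.R490.PA.two_Q (Pool.Agent.TH464.PW.quad 1 0 a) (q a) (fun x => by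
    unfold Pool.Agent.TH464.PW.quad q
    simp) p m

lemma good_iff (a : ℤ) (N r n : ℕ) : Pool.Agent.R463.PS.Sifted (sy a) N r n ↔ Good a N r n := by
  unfold Pool.Agent.R463.PS.Sifted Good
  constructor
  · intro h p hp hpr
    have h1 : ¬ Pool.Agent.W123.RU.Poly.Q (sy a) p n := by
      rintro ⟨i, hi⟩
      exact h p hp hpr i hi
    rw [sy_Q, not_or] at h1
    exact h1
  · intro h p hp hpr i hi
    have h1 : Pool.Agent.W123.RU.Poly.Q (sy a) p n := ⟨i, hi⟩
    rw [sy_Q] at h1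
    have h2 := h p hp hpr
    exact h1.elim h2.1 h2.2

lemma nu_eq (a : ℤ) (H : Finset ℕ) (p : ℕ) : Pool.Agent.R463.PS.omH (sy a) H p = nu a H p := by
  classical
  unfold Pool.Agent.R463.PS.omH nu
  congr 1
  ext n
  simp only [mem_filter]
  constructor
  · rintro ⟨h1, h, hh, h2⟩
    exact ⟨h1, h, hh, (sy_Q a p (n + h)).1 h2⟩
  · rintro ⟨h1, h, hh, h2⟩
    exact ⟨h1, h, hh, (sy_Q a p (n + h)).2 h2⟩

lemma V_eq (a : ℤ) (H : Finset ℕ) (N r : ℕ) : Pool.Agent.R463.PS.VH (sy a) H N r = V a H N r := by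
  unfold Pool.Agent.R463.PS.VH V
  apply prod_congr rfl
  intro p _
  rw [nu_eq]

lemma V0_eq (a : ℤ) (N r : ℕ) : Pool.Agent.R463.PS.V (sy a) N r = V a {0} N r := by
  classical
  unfold Pool.Agent.R463.PS.V V
  apply prod_congr rfl
  intro p _
  have : Pool.Agent.R463.PS.om (sy a) p = nu a {0} p := by
    unfold Pool.Agent.R463.PS.om nu
    congr 1
    ext n
    simp only [mem_filter, mem_singleton, exists_eq_left, add_zero]
    exact and_congr_right fun _ => sy_Q a p n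
  rw [this]

lemma W_eq (a : ℤ) (H : Finset ℕ) (N r : ℕ) :
    V a H N r / Pool.Agent.H373R2.T7.Vz ⌊(N : ℝ) ^ (1 / (r : ℝ))⌋₊ = W a H N r := by
  unfold V W Pool.Agent.H373R2.T7.Vz
  rw [Finset.prod_div_distrib]
  rfl

open Polynomial in
lemma good (a : ℤ) (hev : Even a) (h3 : a % 3 ≠ 2) (hsq : ¬ IsSquare (-a)) (N A : ℕ) (hN : 1 ≤ N)
    (ha : |a| ≤ (N : ℤ) ^ A) :
    Pool.Agent.R490.PA.Good 2 ((N : ℤ) ^ A) (Pool.Agent.TH464.PW.quad 1 0 a) (q a) where
  ev := fun x => by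
    unfold Pool.Agent.TH464.PW.quad q
    simp
  irr := Pool.Agent.TH464.PW.quad_irr 1 0 a one_ne_zero (fun p hp h => by
    have h1 : p ∣ 1 := by exact_mod_cast h.1
    exact hp.one_lt.ne' (Nat.dvd_one.1 h1)) (by
    rintro ⟨m, hm⟩
    apply hsq
    have h1 : (2 : ℤ) ∣ m := by
      have h2 : (2 : ℤ) ∣ m * m := ⟨2 * -a, by linarith⟩
      exact (Int.prime_two.dvd_or_dvd h2).elim id id
    obtain ⟨c, hc⟩ := h1
    refine ⟨c, ?_⟩
    rw [hc] at hm
    linarith)
  deg := by rw [Pool.Agent.TH464.PW.quad_deg 1 0 a one_ne_zero]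
  degD := by rw [Pool.Agent.TH464.PW.quad_deg 1 0 a one_ne_zero]
  hgt := fun n => Pool.Agent.Y879.GL.quad_coeff 1 0 a n _ (by
    rw [abs_one]
    exact one_le_pow₀ (by exact_mod_cast hN)) (by rw [abs_zero]; positivity) ha
  adm := fun p hp => by
    unfold q
    by_cases h2 : p = 2
    · subst h2
      refine ⟨1, by norm_num, ?_⟩
      obtain ⟨c, hc⟩ := hev
      push_cast
      omega
    · by_cases h3' : p = 3
      · subst h3'
        refine ⟨1, by norm_num, ?_⟩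
        push_cast
        omega
      · have hp5 : 5 ≤ p := by
          have := hp.two_le
          by_contra hcon
          have : p = 4 := by omega
          subst this
          exact absurd hp (by norm_num)
        by_cases h1 : (p : ℤ) ∣ 1 + a
        · refine ⟨2, fun h => by
            have := Nat.le_of_dvd (by norm_num) h
            omega, fun h => ?_⟩
          have h4 := dvd_sub h h1
          have e : (((2 : ℕ) : ℤ)) ^ 2 + a - (1 + a) = 3 := by push_cast; ring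
          rw [e] at h4
          have h5 : p ∣ 3 := by exact_mod_cast h4
          have := Nat.le_of_dvd (by norm_num) h5
          omega
        · refine ⟨1, fun h => by
            have := Nat.le_of_dvd (by norm_num) h
            omega, ?_⟩
          rw [Nat.cast_one, one_pow]
          exact h1

open Classical in
lemma Blocks_eq (a : ℤ) (H : Finset ℕ) (b L N r u Y : ℕ) : Blocks a H b L N r u Y =
    ((Ioc u (u + Y)).filter (fun n => (n + b).Prime ∧
      ∀ h ≤ L, Pool.Agent.R463.PS.Sifted (sy a) N r (n + h) ↔ h ∈ H)).card := by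
  unfold Blocks
  congr 1
  ext n
  simp only [mem_filter, good_iff]

/-- **The blocks of almost primes `n ^ 2 + a` with a prime argument.** For all `A`, `K`, `θ, δ > 0`, `x₀` and
`ε > 0` there is `r₀` such that for all `r ≥ r₀` and all large `N` the following holds uniformly for ALL even
integers `a`, `|a| ≤ N ^ A`, `a` not congruent to `2` modulo `3`, not of the form `- m ^ 2`, for all
`X ≥ N ^ θ`, all windows `(u, u + Y]` in `(0, X]` with `u, Y ≥ δ X`, all sets `H` of at most `K` natural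
numbers with `0 ∈ H`, all `b ∈ H` and all `L ≥ max H` with `L V ≤ x₀`, `V = V a {0} N r`: the number of the
`n` in the window for which `n + b` is a PRIME and the good integers in `[n, n + L]` are exactly the `n + h`,
`h ∈ H`, is `Y W exp (- L V) / log X`, `W = W a H N r`, up to the factor `1 ± ε`. -/
theorem result (A K : ℕ) (θ δ : ℝ) (hθ : 0 < θ) (hδ : 0 < δ) (hδ1 : δ ≤ 1) (x₀ ε : ℝ) (hε : 0 < ε) :
    ∃ r₀ : ℕ, ∀ r : ℕ, r₀ ≤ r → ∀ᶠ N : ℕ in atTop, ∀ a : ℤ, Even a → a % 3 ≠ 2 →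
      ¬ IsSquare (-a) → |a| ≤ (N : ℤ) ^ A →
      ∀ X : ℕ, (N : ℝ) ^ θ ≤ X → ∀ H : Finset ℕ, H.card ≤ K → 0 ∈ H → ∀ b ∈ H, ∀ L : ℕ,
        (∀ h ∈ H, h ≤ L) → L * V a {0} N r ≤ x₀ →
        ∀ u Y : ℕ, δ * X ≤ u → δ * X ≤ Y → u + Y ≤ X →
        |(Blocks a H b L N r u Y : ℝ) * Real.log X - Y * W a H N r * Real.exp (-(L * V a {0} N r))| ≤
          ε * (Y * W a H N r * Real.exp (-(L * V a {0} N r))) := by
  choose r0 h using fun g : ℕ => Pool.Agent.R463.EX.blocksP 2 2 (g + 1) (by omega) ((A : ℝ) + 1) 1 θ δ x₀ ε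
    (by positivity) one_pos hθ hδ hδ1 hε
  refine ⟨∑ g ∈ range K, r0 g, fun r hr => ?_⟩
  have hall := (Finset.eventually_all (range K)).2 (fun g hg =>
    h g r ((Finset.single_le_sum (fun _ _ => Nat.zero_le _) hg).trans hr))
  filter_upwards [hall, eventually_ge_atTop 1] with N hN hN1
  intro a h1 h2 h3 h4 X hX H hH h0 b hb L hL hx u Y hu hY huY
  have hpos : 0 < H.card := card_pos.2 ⟨0, h0⟩
  have h5 := hN (H.card - 1) (mem_range.2 (by omega)) (sy a)
    ((good a h1 h2 h3 N A hN1 h4).us (by norm_num) hN1 _) ⟨0, rfl⟩ X hX H (by omega) h0 b hb L hL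
    (by rw [V0_eq]; exact hx) u Y hu hY huY
  rw [V_eq, V0_eq, W_eq] at h5
  rw [Blocks_eq]
  exact h5

end Pool.Agent.Results.MP_391708_nt.ExactBlocksWithPrime
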